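import Pool.Agent.H20.AP.VPC

/-!
# FRE: free rays towards a virtual apex, caps of foreign discs
-/

set_option autoImplicit false

open MeasureTheory Set Real

noncomputable section

namespace Pool.Agent.H20.AP

open Pool.Agent.H20.AL Pool.Agent.H78.P6 Pool.Agent.H16.AP Pool.Agent.H63.P6

/-- the direction from `b` to `p` is not in the cap of `z` -/
def NoCap (b p z : ℂ) : Prop := dt (p - b) (z - b) ≤ √3 / 2 * ‖p - b‖ * ‖z - b‖ ^ 2

theorem free_of_nocap {X : Set ℂ} {b p : ℂ} (h : ∀ z ∈ X, z ≠ b → NoCap b p z) : Free X b p :=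
  fun z hz hzb hc => absurd hc (not_lt.2 (h z hz hzb))

theorem nocap_iff {b p z : ℂ} :
    NoCap b p z ↔ ‖p - b‖ ^ 2 + ‖z - b‖ ^ 2 - √3 * ‖p - b‖ * ‖z - b‖ ^ 2 ≤ ‖z - p‖ ^ 2 := by
  have e : ‖z - p‖ ^ 2 = ‖p - b‖ ^ 2 + ‖z - b‖ ^ 2 - 2 * dt (p - b) (z - b) := by
    rw [nsq, nsq, nsq]; simp [dt]; ring
  unfold NoCap
  rw [e]
  constructor
  · intro h; linarith
  · intro h; linarith

theorem dt_le (u v : ℂ) : dt u v ≤ ‖u‖ * ‖v‖ := by
  have h := lag u v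
  have h2 : dt u v ^ 2 ≤ (‖u‖ * ‖v‖) ^ 2 := by nlinarith [sq_nonneg (cr u v)]
  exact abs_le_of_sq_le_sq' h2 (by positivity) |>.2

/-- far points have no cap -/
theorem nocap_far {b p z : ℂ} (h : 2 / √3 ≤ ‖z - b‖) : NoCap b p z := by
  unfold NoCap
  refine (dt_le _ _).trans ?_
  have hs : (0:ℝ) < √3 := by positivity
  have h2 : 2 ≤ √3 * ‖z - b‖ := by
    rw [div_le_iff₀ hs] at h
    linarith
  have h3 : ‖p - b‖ * ‖z - b‖ * 2 ≤ ‖p - b‖ * ‖z - b‖ * (√3 * ‖z - b‖) :=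
    mul_le_mul_of_nonneg_left h2 (by positivity)
  nlinarith

/-- points at distance at least `1/2` from the line have no cap -/
theorem nocap_line {b p z : ℂ} (h1 : 1 ≤ ‖z - b‖) (h : 1 / 2 * ‖p - b‖ ≤ |cr (p - b) (z - b)|) : NoCap b p z := by
  unfold NoCap
  by_contra hc
  push Not at hc
  have hs2 : √3 * √3 = 3 := Real.mul_self_sqrt (by norm_num)
  have hs : (0:ℝ) < √3 := by positivity
  set m := ‖p - b‖ with hm
  set l := ‖z - b‖ with hl
  have hm0 : 0 ≤ m := norm_nonneg _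
  have hlag := lag (p - b) (z - b)
  rw [← hm, ← hl] at hlag
  have c2 : (1 / 2 * m) ^ 2 ≤ cr (p - b) (z - b) ^ 2 := by
    rw [← sq_abs (cr (p - b) (z - b))]
    exact pow_le_pow_left₀ (by positivity) h 2
  have d2 : (√3 / 2 * m * l ^ 2) ^ 2 ≤ dt (p - b) (z - b) ^ 2 :=
    pow_le_pow_left₀ (by positivity) hc.le 2
  have hmpos : 0 < m := by
    rcases hm0.eq_or_lt with h0 | h0
    · exfalso
      have : p - b = 0 := norm_eq_zero.1 (by rw [← hm, ← h0])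
      rw [this] at hc
      simp [dt] at hc
      rw [← h0] at hc
      simp at hc
    · exact h0
  have e1 : (√3 / 2 * m * l ^ 2) ^ 2 = 3 / 4 * m ^ 2 * l ^ 4 := by
    have : (√3 / 2 * m * l ^ 2) ^ 2 = (√3 * √3) / 4 * m ^ 2 * l ^ 4 := by ring
    rw [this, hs2]
  rw [e1] at d2
  have h2 : m ^ 2 * (3 / 4 * l ^ 4 + 1 / 4) ≤ m ^ 2 * l ^ 2 := by nlinarith
  have h3 : 3 / 4 * l ^ 4 + 1 / 4 ≤ l ^ 2 := le_of_mul_le_mul_left h2 (by positivity)
  -- hence `l = 1`, and the strict inequality fails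
  have h4 : (l ^ 2 - 1) * (3 * l ^ 2 - 1) ≤ 0 := by nlinarith
  have h5 : l ^ 2 ≤ 1 := by
    by_contra hcc
    push Not at hcc
    have : 0 < (l ^ 2 - 1) * (3 * l ^ 2 - 1) := mul_pos (by linarith) (by linarith)
    linarith
  have h6 : l = 1 := by nlinarith
  have d3 : (√3 / 2 * m * l ^ 2) ^ 2 < dt (p - b) (z - b) ^ 2 :=
    pow_lt_pow_left₀ hc (by positivity) two_ne_zero
  rw [e1, h6] at d3
  rw [h6] at hlag
  nlinarith

/-- points at distance at least `1/√3` from the segment `[b, p]`, of length at least `1/√3`, have no cap -/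
theorem nocap_miss {b p z : ℂ} (hm : 1 / √3 ≤ ‖p - b‖)
    (h : ∀ t : ℝ, 0 ≤ t → t ≤ 1 → 1 / √3 ≤ ‖b + (t : ℂ) * (p - b) - z‖) : NoCap b p z := by
  unfold NoCap
  by_contra hc
  push Not at hc
  have hs : (0:ℝ) < √3 := by positivity
  have hm0 : 0 < ‖p - b‖ := lt_of_lt_of_le (by positivity) hm
  have h1 := dir_cap (norm_pos_iff.1 hm0) hc
  have ht : 1 / (√3 * ‖p - b‖) ≤ 1 := by
    rw [div_le_one (by positivity)]
    rw [div_le_iff₀ hs] at hm
    linarith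
  have h2 := h (1 / (√3 * ‖p - b‖)) (by positivity) ht
  have e : b + ((1 / (√3 * ‖p - b‖) : ℝ) : ℂ) * (p - b) - z =
      ((1 / (√3 * ‖p - b‖) : ℝ) : ℂ) * (p - b) - (z - b) := by ring
  rw [e] at h2
  linarith

/-- the disc of `w` and a set `K` on the other side of a line at distance `d`: `K` is in the half plane
`cr (e - b) (q - b) ≥ 0`, `w` at distance at least `d` on the other side -/
theorem cap_line {b e w : ℂ} {K : Set ℂ} {d : ℝ} (hd0 : 0 ≤ d) (hd1 : d ≤ 1 / √3) (heb : e ≠ b)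
    (hK : ∀ q ∈ K, 0 ≤ cr (e - b) (q - b)) (hw : cr (e - b) (w - b) ≤ -(d * ‖e - b‖)) :
    ∃ S : Set ℂ, K ∩ D w ⊆ S ∧ volume S ≠ ⊤ ∧ volume.real S ≤ 2 * (1 / √3 - d) * √(1 / 3 - d ^ 2) := by
  have hl0 : 0 < ‖e - b‖ := norm_pos_iff.2 (sub_ne_zero.2 heb)
  set n : ℂ := Complex.I * (e - b) / (‖e - b‖ : ℂ) with hn
  have hn1 : ‖n‖ = 1 := by
    rw [hn, norm_div, norm_mul, Complex.norm_I, Complex.norm_real, norm_norm, one_mul, div_self hl0.ne']
  have hdt : ∀ q : ℂ, dt q n = cr (e - b) q / ‖e - b‖ := by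
    intro q
    have e1 : n.re = -(e - b).im / ‖e - b‖ := by
      rw [hn, Complex.div_ofReal_re]; simp
    have e2 : n.im = (e - b).re / ‖e - b‖ := by
      rw [hn, Complex.div_ofReal_im]; simp
    unfold dt cr
    rw [e1, e2]; ring
  refine ⟨{p : ℂ | ‖p - w‖ < 1 / √3 ∧ d ≤ dt (p - w) n}, ?_, ?_, cap_le w n hn1 hd0 hd1⟩
  · rintro p ⟨hp, hpD⟩
    refine ⟨mem_D.1 hpD, ?_⟩
    rw [hdt, le_div_iff₀ hl0]
    have h1 := hK p hp
    have e3 : cr (e - b) (p - w) = cr (e - b) (p - b) - cr (e - b) (w - b) := by simp [cr]; ring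
    rw [e3]; linarith
  · refine ne_of_lt (lt_of_le_of_lt (measure_mono (t := Metric.ball w (1 / √3)) ?_) measure_ball_lt_top)
    rintro p ⟨hp, -⟩
    rw [Metric.mem_ball, dist_eq_norm]
    exact hp

/-- rectangle bound in units of `√3/2`, for distances at least `1/2` -/
theorem rect_le {d : ℝ} (hd0 : 1 / 2 ≤ d) (hd1 : d ≤ 1 / √3) :
    2 * (1 / √3 - d) * √(1 / 3 - d ^ 2) ≤ √3 / 2 * (2 / 3 * (1 / √3 - d)) := by
  have hs : (0:ℝ) < √3 := by positivity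
  have e2 : √(1 / 3 - d ^ 2) ≤ √3 / 6 := by
    rw [Real.sqrt_le_left (by positivity)]
    have : (√3 / 6) ^ 2 = (√3 * √3) / 36 := by ring
    rw [this, Real.mul_self_sqrt (by norm_num)]
    nlinarith
  have h0 : 0 ≤ 2 * (1 / √3 - d) := by linarith
  calc 2 * (1 / √3 - d) * √(1 / 3 - d ^ 2) ≤ 2 * (1 / √3 - d) * (√3 / 6) := mul_le_mul_of_nonneg_left e2 h0
    _ = √3 / 2 * (2 / 3 * (1 / √3 - d)) := by ring

end Pool.Agent.H20.AP
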