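import Pool.Agent.H20.AL.ANG

/-!
# CAP: area of a circular segment of a disc of radius `1/√3`, bounded by a rectangle
-/

set_option autoImplicit false

open MeasureTheory Set Real

noncomputable section

namespace Pool.Agent.H20.AP

open Pool.Agent.H20.AL

theorem cap_le (w u : ℂ) (hu : ‖u‖ = 1) {d : ℝ} (hd0 : 0 ≤ d) (hd1 : d ≤ 1 / √3) :
    volume.real {p : ℂ | ‖p - w‖ < 1 / √3 ∧ d ≤ dt (p - w) u} ≤ 2 * (1 / √3 - d) * √(1 / 3 - d ^ 2) := by
  obtain ⟨T, hT, hTq⟩ := ANG_T w u hu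
  set h := √(1 / 3 - d ^ 2) with hh
  have hr2 : (1 / √3 : ℝ) ^ 2 = 1 / 3 := by
    rw [div_pow, Real.sq_sqrt (by norm_num)]; norm_num
  have hh0 : 0 ≤ 1 / 3 - d ^ 2 := by nlinarith
  have hmeas : MeasurableSet {p : ℂ | ‖p - w‖ < 1 / √3 ∧ d ≤ dt (p - w) u} := by
    refine MeasurableSet.inter (s₁ := {p : ℂ | ‖p - w‖ < 1 / √3}) (s₂ := {p : ℂ | d ≤ dt (p - w) u}) ?_ ?_
    · exact (isOpen_lt (by fun_prop) continuous_const).measurableSet
    · refine (isClosed_le continuous_const ?_).measurableSet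
      unfold dt
      fun_prop
  have hsub : T ⁻¹' {p : ℂ | ‖p - w‖ < 1 / √3 ∧ d ≤ dt (p - w) u} ⊆
      {q : ℂ | q.re ∈ Set.Icc d (1 / √3) ∧ q.im ∈ Set.Icc (-h) h} := by
    rintro q ⟨h1, h2⟩
    obtain ⟨e1, e2, e3⟩ := hTq q
    rw [e3] at h1
    change d ≤ dt (T q - w) u at h2
    rw [e1] at h2
    have h3 : ‖q‖ ^ 2 < 1 / 3 := by rw [← hr2]; exact pow_lt_pow_left₀ h1 (norm_nonneg _) two_ne_zero
    rw [nsq] at h3
    have h4 : q.im ^ 2 ≤ 1 / 3 - d ^ 2 := by nlinarith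
    refine ⟨⟨h2, ?_⟩, ?_⟩
    · refine (Complex.re_le_norm q).trans h1.le
    · rw [Set.mem_Icc, ← abs_le]
      exact Real.abs_le_sqrt h4
  have hrect : volume {q : ℂ | q.re ∈ Set.Icc d (1 / √3) ∧ q.im ∈ Set.Icc (-h) h} =
      ENNReal.ofReal (1 / √3 - d) * ENNReal.ofReal (2 * h) := by
    have e : {q : ℂ | q.re ∈ Set.Icc d (1 / √3) ∧ q.im ∈ Set.Icc (-h) h} =
        Complex.measurableEquivRealProd ⁻¹' (Set.Icc d (1 / √3) ×ˢ Set.Icc (-h) h) := by
      ext q; rfl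
    rw [e, Complex.volume_preserving_equiv_real_prod.measure_preimage
      (measurableSet_Icc.prod measurableSet_Icc).nullMeasurableSet,
      Measure.volume_eq_prod, Measure.prod_prod, Real.volume_Icc, Real.volume_Icc]
    congr 2
    ring
  rw [measureReal_def, ← hT.measure_preimage hmeas.nullMeasurableSet]
  refine ENNReal.toReal_le_of_le_ofReal ?_ ?_
  · have := Real.sqrt_nonneg (1 / 3 - d ^ 2)
    have : 0 ≤ 1 / √3 - d := by linarith
    positivity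
  · refine (measure_mono hsub).trans ?_
    rw [hrect, ← ENNReal.ofReal_mul (by linarith)]
    exact ENNReal.ofReal_le_ofReal (by nlinarith)

/-- distance at least `1/2`: in units of `√3/2` the segment has area at most `52/1000` -/
theorem cap_half (w u : ℂ) (hu : ‖u‖ = 1) :
    volume.real {p : ℂ | ‖p - w‖ < 1 / √3 ∧ 1 / 2 ≤ dt (p - w) u} ≤ √3 / 2 * (52 / 1000) := by
  have hs : (0:ℝ) < √3 := by positivity
  have hs2 : √3 * √3 = 3 := Real.mul_self_sqrt (by norm_num)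
  have hs3 : (1.732 : ℝ) < √3 := Real.lt_sqrt_of_sq_lt (by norm_num)
  have hs4 : √3 < (1.7321 : ℝ) := by
    rw [Real.sqrt_lt' (by norm_num)]; norm_num
  have e1 : 1 / √3 = √3 / 3 := by
    field_simp; linarith
  have h0 : (1 / 2 : ℝ) ≤ 1 / √3 := by rw [e1]; linarith
  refine (cap_le w u hu (by norm_num) h0).trans ?_
  have e2 : √(1 / 3 - (1 / 2 : ℝ) ^ 2) = √3 / 6 := by
    rw [show (1 / 3 - (1 / 2 : ℝ) ^ 2) = (√3 / 6) ^ 2 by nlinarith]
    exact Real.sqrt_sq (by positivity)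
  rw [e2, e1]
  nlinarith

end Pool.Agent.H20.AP
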