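import Pool.Agent.H20.AP.QD
import Pool.Agent.H20.AP.CAP

/-!
# RVL: value of the real apex piece
-/

set_option autoImplicit false

open MeasureTheory Set Real

noncomputable section

namespace Pool.Agent.H20.AP

open Pool.Agent.H20.AL Pool.Agent.H78.P6 Pool.Agent.H16.AP Pool.Agent.H63.P6

/-- loss (in units of `√3/2`) through a leg of squared length `t` -/
def lossL (t : ℝ) : ℝ := if t ≤ 8 / 3 then 0 else 52 / 1000

theorem lossL_nonneg (t : ℝ) : 0 ≤ lossL t := by unfold lossL; split_ifs <;> norm_num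

theorem leg_num {L C P σ : ℝ} (hL : 0 < L) (hL3 : L ≤ 3) (h0 : L ≤ C ^ 2 + P ^ 2) (h1 : L ≤ C ^ 2 + (P - L) ^ 2)
    (s0 : 0 ≤ σ) (s1 : σ ≤ 1) (h : C ^ 2 + (P - σ * L) ^ 2 < L / 3) :
    L / 4 ≤ C ^ 2 ∧ C ^ 2 < L / 3 ∧ 47 / 100 * L ≤ P ∧ P ≤ 53 / 100 * L ∧ 8 / 3 < L := by
  have c1 : C ^ 2 < L / 3 := by nlinarith [sq_nonneg (P - σ * L)]
  have p1 : 2 * L / 3 < P ^ 2 := by linarith
  have p2 : 2 * L / 3 < (L - P) ^ 2 := by nlinarith
  have p3 : (P - σ * L) ^ 2 < L / 3 := by nlinarith [sq_nonneg C]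
  have hσL : 0 ≤ σ * L := by positivity
  have hσL1 : 0 ≤ (1 - σ) * L := mul_nonneg (by linarith) hL.le
  have hP0 : 0 ≤ P := by
    by_contra hc
    push Not at hc
    nlinarith
  have hP1 : 0 ≤ L - P := by
    by_contra hc
    push Not at hc
    nlinarith
  refine ⟨?_, c1, ?_, ?_, ?_⟩
  · by_contra hc
    push Not at hc
    have q1 : L / 2 < P := by
      by_contra hq
      push Not at hq
      nlinarith
    have q2 : L / 2 < L - P := by
      by_contra hq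
      push Not at hq
      nlinarith
    linarith
  · by_contra hq
    push Not at hq
    nlinarith
  · by_contra hq
    push Not at hq
    nlinarith
  · by_contra hc
    push Not at hc
    have q1 : L / 2 < P := by
      by_contra hq
      push Not at hq
      nlinarith
    have q2 : L / 2 < L - P := by
      by_contra hq
      push Not at hq
      nlinarith
    linarith

/-- a point `w` of the packing whose disc passes the segment `[a, b]` -/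
theorem leg_pt {a b w : ℂ} (hab : b ≠ a) (hl : ‖b - a‖ ^ 2 ≤ 3) (ha : 1 ≤ dist w a) (hb : 1 ≤ dist w b)
    {σ : ℝ} (s0 : 0 ≤ σ) (s1 : σ ≤ 1) (h : ‖a + σ * (b - a) - w‖ < 1 / √3) :
    ‖b - a‖ ^ 2 / 4 ≤ cr (b - a) (w - a) ^ 2 ∧ cr (b - a) (w - a) ^ 2 < ‖b - a‖ ^ 2 / 3 ∧
      47 / 100 * ‖b - a‖ ^ 2 ≤ dt (b - a) (w - a) ∧ dt (b - a) (w - a) ≤ 53 / 100 * ‖b - a‖ ^ 2 ∧
      8 / 3 < ‖b - a‖ ^ 2 := by
  have hL : 0 < ‖b - a‖ ^ 2 := by
    have := norm_pos_iff.2 (sub_ne_zero.2 hab)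
    positivity
  have hr2 : (1 / √3 : ℝ) ^ 2 = 1 / 3 := by
    rw [div_pow, Real.sq_sqrt (by norm_num)]; norm_num
  have h' : ‖a + σ * (b - a) - w‖ ^ 2 < 1 / 3 := by
    rw [← hr2]; exact pow_lt_pow_left₀ h (norm_nonneg _) two_ne_zero
  rw [dist_eq_norm] at ha hb
  have ha2 : 1 ≤ ‖w - a‖ ^ 2 := by nlinarith
  have hb2 : 1 ≤ ‖w - b‖ ^ 2 := by nlinarith
  have e0 : cr (b - a) (w - a) ^ 2 + dt (b - a) (w - a) ^ 2 = ‖b - a‖ ^ 2 * ‖w - a‖ ^ 2 := by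
    rw [← lag]; ring
  have e1 : cr (b - a) (w - a) ^ 2 + (dt (b - a) (w - a) - ‖b - a‖ ^ 2) ^ 2 = ‖b - a‖ ^ 2 * ‖w - b‖ ^ 2 := by
    rw [nsq, nsq]; simp [cr, dt]; ring
  have e2 : cr (b - a) (w - a) ^ 2 + (dt (b - a) (w - a) - σ * ‖b - a‖ ^ 2) ^ 2 =
      ‖b - a‖ ^ 2 * ‖a + σ * (b - a) - w‖ ^ 2 := by
    rw [nsq, nsq]; simp [cr, dt]; ring
  refine leg_num hL hl ?_ ?_ s0 s1 ?_
  · rw [e0]; nlinarith
  · rw [e1]; nlinarith
  · rw [e2]; nlinarith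

theorem leg_uniq {a b w w' : ℂ} (hab : b ≠ a) (hl : ‖b - a‖ ^ 2 ≤ 3)
    (h1 : ‖b - a‖ ^ 2 / 4 ≤ cr (b - a) (w - a) ^ 2) (h2 : cr (b - a) (w - a) ^ 2 < ‖b - a‖ ^ 2 / 3)
    (h3 : 47 / 100 * ‖b - a‖ ^ 2 ≤ dt (b - a) (w - a)) (h4 : dt (b - a) (w - a) ≤ 53 / 100 * ‖b - a‖ ^ 2)
    (h1' : ‖b - a‖ ^ 2 / 4 ≤ cr (b - a) (w' - a) ^ 2) (h2' : cr (b - a) (w' - a) ^ 2 < ‖b - a‖ ^ 2 / 3)
    (h3' : 47 / 100 * ‖b - a‖ ^ 2 ≤ dt (b - a) (w' - a)) (h4' : dt (b - a) (w' - a) ≤ 53 / 100 * ‖b - a‖ ^ 2)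
    (hs : cr (b - a) (w - a) < 0) (hs' : cr (b - a) (w' - a) < 0) : dist w w' < 1 := by
  have hL : 0 < ‖b - a‖ ^ 2 := by
    have := norm_pos_iff.2 (sub_ne_zero.2 hab)
    positivity
  set L := ‖b - a‖ ^ 2 with hLd
  set C := cr (b - a) (w - a)
  set C' := cr (b - a) (w' - a)
  set P := dt (b - a) (w - a)
  set P' := dt (b - a) (w' - a)
  have e : (C - C') ^ 2 + (P - P') ^ 2 = L * ‖w - w'‖ ^ 2 := by
    simp only [C, C', P, P', hLd]
    rw [nsq, nsq]; simp [cr, dt]; ring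
  have hCC : L / 4 ≤ C * C' := by
    have h5 : (L / 4) ^ 2 ≤ (C * C') ^ 2 := by
      rw [mul_pow]
      nlinarith
    have h6 : 0 < C * C' := mul_pos_of_neg_of_neg hs hs'
    nlinarith
  have h7 : (C - C') ^ 2 ≤ L / 6 := by nlinarith
  have h8 : (P - P') ^ 2 ≤ (6 / 100 * L) ^ 2 := by
    apply sq_le_sq'
    · linarith
    · linarith
  have h9 : (6 / 100 * L) ^ 2 ≤ 2 / 100 * L := by nlinarith
  have h10 : L * ‖w - w'‖ ^ 2 < L * 1 := by rw [← e]; linarith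
  have h11 : ‖w - w'‖ ^ 2 < 1 := lt_of_mul_lt_mul_left h10 hL.le
  rw [dist_eq_norm]
  nlinarith [norm_nonneg (w - w')]

/-- the part of the discs passing a leg is in a set of small area -/
theorem leg_cap {X : Set ℂ} (hsep : Sep X) {a b : ℂ} (haX : a ∈ X) (hbX : b ∈ X) (hab : b ≠ a)
    (hl : ‖b - a‖ ^ 2 ≤ 3) :
    ∃ S : Set ℂ, volume S ≠ ⊤ ∧ volume.real S ≤ √3 / 2 * lossL (‖b - a‖ ^ 2) ∧
      ∀ w ∈ X, w ≠ a → w ≠ b → cr (b - a) (w - a) < 0 →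
        (∃ σ : ℝ, 0 ≤ σ ∧ σ ≤ 1 ∧ ‖a + σ * (b - a) - w‖ < 1 / √3) →
        ∀ p : ℂ, ‖p - w‖ < 1 / √3 → 0 < cr (b - a) (p - a) → p ∈ S := by
  by_cases hex : ∃ w ∈ X, w ≠ a ∧ w ≠ b ∧ cr (b - a) (w - a) < 0 ∧
      ∃ σ : ℝ, 0 ≤ σ ∧ σ ≤ 1 ∧ ‖a + σ * (b - a) - w‖ < 1 / √3
  · obtain ⟨w0, hw0, hwa, hwb, hs, σ, s0, s1, hσ⟩ := hex
    obtain ⟨h1, h2, h3, h4, h5⟩ := leg_pt hab hl (hsep _ hw0 _ haX hwa) (hsep _ hw0 _ hbX hwb) s0 s1 hσ
    have hl0 : 0 < ‖b - a‖ := norm_pos_iff.2 (sub_ne_zero.2 hab)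
    set n : ℂ := Complex.I * (b - a) / (‖b - a‖ : ℂ) with hn
    have hn1 : ‖n‖ = 1 := by
      rw [hn, norm_div, norm_mul, Complex.norm_I, Complex.norm_real, norm_norm, one_mul, div_self hl0.ne']
    have hdt : ∀ q : ℂ, dt q n = cr (b - a) q / ‖b - a‖ := by
      intro q
      have e1 : n.re = -(b - a).im / ‖b - a‖ := by
        rw [hn, Complex.div_ofReal_re]; simp
      have e2 : n.im = (b - a).re / ‖b - a‖ := by
        rw [hn, Complex.div_ofReal_im]; simp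
      unfold dt cr
      rw [e1, e2]; ring
    refine ⟨{p : ℂ | ‖p - w0‖ < 1 / √3 ∧ 1 / 2 ≤ dt (p - w0) n}, ?_, ?_, ?_⟩
    · refine ne_of_lt (lt_of_le_of_lt (measure_mono (t := Metric.ball w0 (1 / √3)) ?_) measure_ball_lt_top)
      rintro p ⟨hp, -⟩
      rw [Metric.mem_ball, dist_eq_norm]
      exact hp
    · rw [lossL, if_neg (not_le.2 h5)]
      exact cap_half w0 n hn1
    · intro w hw hwa' hwb' hs' ⟨σ', s0', s1', hσ'⟩ p hp hpc
      obtain ⟨h1', h2', h3', h4', h5'⟩ := leg_pt hab hl (hsep _ hw _ haX hwa') (hsep _ hw _ hbX hwb') s0' s1' hσ'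
      have hww : w = w0 := by
        by_contra hne
        have := hsep _ hw _ hw0 hne
        have := leg_uniq hab hl h1' h2' h3' h4' h1 h2 h3 h4 hs' hs
        linarith
      subst hww
      refine ⟨hp, ?_⟩
      rw [hdt, le_div_iff₀ hl0]
      have e : cr (b - a) (p - w) = cr (b - a) (p - a) - cr (b - a) (w - a) := by simp [cr]; ring
      rw [e]
      have h6 : 1 / 2 * ‖b - a‖ ≤ -cr (b - a) (w - a) := by
        have h7 : (1 / 2 * ‖b - a‖) ^ 2 ≤ (-cr (b - a) (w - a)) ^ 2 := by nlinarith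
        exact (sq_le_sq₀ (by positivity) (by linarith)).1 h7
      linarith
  · refine ⟨∅, by simp, ?_, ?_⟩
    · simp only [measureReal_empty]
      have := lossL_nonneg (‖b - a‖ ^ 2)
      positivity
    · intro w hw h1 h2 h3 h4
      exact absurd ⟨w, hw, h1, h2, h3, h4⟩ hex

theorem cone_split {x a b c : ℂ} (hb : b ≠ x) :
    volume.real (Cone x a c ∩ D x) ≤ volume.real (Cone x a b ∩ D x) + volume.real (Cone x b c ∩ D x) := by
  have hsub : Cone x a c ∩ D x ⊆ (Cone x a b ∩ D x) ∪ (Cone x b c ∩ D x) ∪ {u | cr (b - x) (u - x) = 0} := by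
    rintro u ⟨⟨h1, h2⟩, h3⟩
    rcases lt_trichotomy 0 (cr (u - x) (b - x)) with h | h | h
    · exact Or.inl (Or.inl ⟨⟨h1, h⟩, h3⟩)
    · right
      change cr (b - x) (u - x) = 0
      rw [cr_comm, ← h, neg_zero]
    · refine Or.inl (Or.inr ⟨⟨?_, h2⟩, h3⟩)
      rw [cr_comm]; linarith
  have hnull := line_null hb
  have hf1 : volume (Cone x a b ∩ D x) ≠ ⊤ := TRA_fin x Set.inter_subset_right
  have hf2 : volume (Cone x b c ∩ D x) ≠ ⊤ := TRA_fin x Set.inter_subset_right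
  have h1 : volume.real (Cone x a c ∩ D x) ≤
      volume.real ((Cone x a b ∩ D x) ∪ (Cone x b c ∩ D x) ∪ {u | cr (b - x) (u - x) = 0}) := by
    refine measureReal_mono hsub ?_
    refine (measure_union_lt_top (measure_union_lt_top hf1.lt_top hf2.lt_top) ?_).ne
    rw [hnull]; exact ENNReal.zero_lt_top
  have h2 := measureReal_union_le (μ := volume) ((Cone x a b ∩ D x) ∪ (Cone x b c ∩ D x))
    {u | cr (b - x) (u - x) = 0}
  have h3 := measureReal_union_le (μ := volume) (Cone x a b ∩ D x) (Cone x b c ∩ D x)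
  have h4 : volume.real {u | cr (b - x) (u - x) = 0} = 0 := by rw [measureReal_def, hnull]; rfl
  linarith

/-- the four corners of a quadrilateral -/
def Crq (p a b c : ℂ) : Finset (ℂ × ℂ × ℂ) :=
  Finset.univ.image fun k : Fin 4 => ![(p, a, c), (a, b, p), (b, c, a), (c, p, b)] k

theorem Crq_mem {p a b c : ℂ} {q : ℂ × ℂ × ℂ} :
    q ∈ Crq p a b c ↔ q = (p, a, c) ∨ q = (a, b, p) ∨ q = (b, c, a) ∨ q = (c, p, b) := by
  unfold Crq
  rw [Finset.mem_image]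
  constructor
  · rintro ⟨k, -, rfl⟩
    fin_cases k
    · exact Or.inl rfl
    · exact Or.inr (Or.inl rfl)
    · exact Or.inr (Or.inr (Or.inl rfl))
    · exact Or.inr (Or.inr (Or.inr rfl))
  · rintro (rfl | rfl | rfl | rfl)
    · exact ⟨0, Finset.mem_univ _, rfl⟩
    · exact ⟨1, Finset.mem_univ _, rfl⟩
    · exact ⟨2, Finset.mem_univ _, rfl⟩
    · exact ⟨3, Finset.mem_univ _, rfl⟩

theorem Crq_sum {p a b c : ℂ} (h : QC p a b c) :
    ∑ q ∈ Crq p a b c, volume.real (Cone q.1 q.2.1 q.2.2 ∩ D q.1) ≤ π / 3 := by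
  have h0 : ∑ q ∈ Crq p a b c, volume.real (Cone q.1 q.2.1 q.2.2 ∩ D q.1) ≤
      ∑ k : Fin 4, volume.real (Cone (![(p, a, c), (a, b, p), (b, c, a), (c, p, b)] k).1
        (![(p, a, c), (a, b, p), (b, c, a), (c, p, b)] k).2.1 (![(p, a, c), (a, b, p), (b, c, a), (c, p, b)] k).2.2 ∩
        D (![(p, a, c), (a, b, p), (b, c, a), (c, p, b)] k).1) := by
    classical
    unfold Crq
    exact Finset.sum_image_le_of_nonneg (fun _ _ => measureReal_nonneg)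
  have hbp : b ≠ p := by
    rintro rfl
    have := h.pab
    simp [cr] at this
  have h1 := cone_split (x := p) (a := a) (b := b) (c := c) hbp
  have h2 := cone_split (x := b) (a := c) (b := p) (c := a) hbp.symm
  have h3 := corner_sum h.pab
  have h4 := corner_sum h.bcp
  rw [Fin.sum_univ_four] at h0
  simp only [Matrix.cons_val] at h0
  linarith

/-- the real apex piece -/
theorem rpiece {X : Set ℂ} (hsep : Sep X) {y a b c : ℂ} (hy : y ∈ X) (ha : a ∈ X) (hb : b ∈ X) (hc : c ∈ X)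
    (hQ : QC y a b c) (h1 : ‖a - y‖ ^ 2 ≤ 3) (h3 : ‖c - y‖ ^ 2 ≤ 3) (e1 : ‖b - a‖ ^ 2 ≤ 8 / 3)
    (e2 : ‖c - b‖ ^ 2 ≤ 8 / 3) (nx : ∀ z ∈ X, z ∈ Qd y a b c → z = y ∨ z = a ∨ z = b ∨ z = c) :
    ∃ (P : Set ℂ) (C : Finset (ℂ × ℂ × ℂ)), Piece X P C ∧ P ⊆ Qo y a b c ∧
      √3 / 2 * (fanw (a - y) (b - y) (c - y) - lossL (‖a - y‖ ^ 2) - lossL (‖c - y‖ ^ 2)) ≤ val P C := by
  have hay : a ≠ y := by
    rintro rfl
    have := hQ.pab
    simp [cr] at this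
  have hba : b ≠ a := by
    rintro rfl
    have := hQ.abc
    simp [cr] at this
  have hcb : c ≠ b := by
    rintro rfl
    have := hQ.bcp
    rw [cr_self] at this
    exact lt_irrefl _ this
  have hcy : c ≠ y := by
    rintro rfl
    have := hQ.cpa
    simp [cr] at this
  have hlt : ∀ u v : ℂ, ‖u - v‖ ^ 2 ≤ 3 → dist u v ≤ √3 := by
    intro u v h
    rw [dist_eq_norm]
    exact Real.le_sqrt_of_sq_le h
  have hlt' : ∀ u v : ℂ, ‖u - v‖ ^ 2 ≤ 3 → dist v u ≤ √3 := by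
    intro u v h
    rw [dist_comm]; exact hlt u v h
  have hcorn : ∀ q ∈ Crq y a b c, (q.1 ∈ X ∧ 0 < cr (q.2.1 - q.1) (q.2.2 - q.1) ∧ Free X q.1 q.2.1 ∧
      Free X q.1 q.2.2) ∧ Qo y a b c ⊆ Cone q.1 q.2.1 q.2.2 := by
    intro q hq
    rcases Crq_mem.1 hq with rfl | rfl | rfl | rfl
    · exact ⟨⟨hy, hQ.cpa, free_X hsep hy ha hay (hlt _ _ h1), free_X hsep hy hc hcy (hlt _ _ h3)⟩,
        fun u hu => Qo_cone_p hu⟩
    · refine ⟨⟨ha, ?_, free_X hsep ha hb hba (hlt _ _ (by linarith)), free_X hsep ha hy hay.symm (hlt' _ _ h1)⟩,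
        fun u hu => Qo_cone_a hu⟩
      have := hQ.pab
      simp only [cr, Complex.sub_re, Complex.sub_im] at *
      linarith
    · refine ⟨⟨hb, ?_, free_X hsep hb hc hcb (hlt _ _ (by linarith)), free_X hsep hb ha hba.symm (hlt' _ _ (by linarith))⟩,
        fun u hu => Qo_cone_b hu⟩
      have := hQ.abc
      simp only [cr, Complex.sub_re, Complex.sub_im] at *
      linarith
    · refine ⟨⟨hc, ?_, free_X hsep hc hy hcy.symm (hlt' _ _ h3), free_X hsep hc hb hcb.symm (hlt' _ _ (by linarith))⟩,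
        fun u hu => Qo_cone_c hu⟩
      have := hQ.bcp
      simp only [cr, Complex.sub_re, Complex.sub_im] at *
      linarith
  have hyc : ‖y - c‖ ^ 2 ≤ 3 := by rw [norm_sub_rev]; exact h3
  obtain ⟨S1, f1, v1, g1⟩ := leg_cap hsep hy ha hay h1
  obtain ⟨S3, f3, v3, g3⟩ := leg_cap hsep hc hy hcy.symm hyc
  have hne : ∀ w : ℂ, (∀ q ∈ Crq y a b c, q.1 ≠ w) → w ≠ y ∧ w ≠ a ∧ w ≠ b ∧ w ≠ c := by
    intro w hw
    refine ⟨?_, ?_, ?_, ?_⟩
    · exact (hw (y, a, c) (Crq_mem.2 (Or.inl rfl))).symm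
    · exact (hw (a, b, y) (Crq_mem.2 (Or.inr (Or.inl rfl)))).symm
    · exact (hw (b, c, a) (Crq_mem.2 (Or.inr (Or.inr (Or.inl rfl))))).symm
    · exact (hw (c, y, b) (Crq_mem.2 (Or.inr (Or.inr (Or.inr rfl))))).symm
  have hr2 : (1 / √3 : ℝ) ^ 2 = 1 / 3 := by
    rw [div_pow, Real.sq_sqrt (by norm_num)]; norm_num
  -- the base edges cannot be passed
  have hbase : ∀ (w e f : ℂ) (σ : ℝ), 0 ≤ σ → σ ≤ 1 → 1 ≤ dist w e → 1 ≤ dist w f → ‖f - e‖ ^ 2 ≤ 8 / 3 →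
      ‖e + (σ : ℂ) * (f - e) - w‖ < 1 / √3 → False := by
    intro w e f σ s0 s1 he hf hl h
    have h' : ‖e + σ * (f - e) - w‖ ^ 2 < 1 / 3 := by
      rw [← hr2]; exact pow_lt_pow_left₀ h (norm_nonneg _) two_ne_zero
    have hst := stewart e w f σ
    have he2 := CRS_one' he
    have hf2 := CRS_one' hf
    nlinarith [mul_nonneg s0 (sub_nonneg.2 s1), sq_nonneg (σ - 1 / 2)]
  have hcov : ∀ w ∈ X, (∀ q ∈ Crq y a b c, q.1 ≠ w) → Qo y a b c ∩ D w ⊆ S1 ∪ S3 := by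
    rintro w hw hq p ⟨hp, hpD⟩
    obtain ⟨n0, n1, n2, n3⟩ := hne w hq
    rw [mem_D] at hpD
    have hwQ : w ∉ Qd y a b c := by
      intro hh
      rcases nx w hw hh with h | h | h | h
      · exact n0 h
      · exact n1 h
      · exact n2 h
      · exact n3 h
    obtain ⟨τ, σ, t0, t1, s0, s1, hh⟩ := exit4 hQ (Qo_sub_Qd _ _ _ _ hp) hwQ
    have hu : ‖p + (τ : ℂ) * (w - p) - w‖ < 1 / √3 := by
      have e : p + (τ : ℂ) * (w - p) - w = ((1 - τ : ℝ) : ℂ) * (p - w) := by push_cast; ring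
      rw [e, norm_mul, Complex.norm_real, Real.norm_of_nonneg (by linarith)]
      nlinarith [norm_nonneg (p - w)]
    rcases hh with ⟨hs, hh⟩ | ⟨hs, hh⟩ | ⟨hs, hh⟩ | ⟨hs, hh⟩
    · rw [hh] at hu
      exact Or.inl (g1 w hw n0 n1 hs ⟨σ, s0, s1, hu⟩ p hpD hp.1)
    · rw [hh] at hu
      exact (hbase w a b σ s0 s1 (hsep _ hw _ ha n1) (hsep _ hw _ hb n2) e1 hu).elim
    · rw [hh] at hu
      exact (hbase w b c σ s0 s1 (hsep _ hw _ hb n2) (hsep _ hw _ hc n3) e2 hu).elim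
    · rw [hh] at hu
      exact Or.inr (g3 w hw n3 n0 hs ⟨σ, s0, s1, hu⟩ p hpD hp.2.2.2)
  refine ⟨Minus X (Qo y a b c) (Crq y a b c), Crq y a b c, ?_, Set.diff_subset, ?_⟩
  · exact piece_minus (Qo_open _ _ _ _) (qo_bdd hQ) (fun q hq => (hcorn q hq).1) (fun q hq => (hcorn q hq).2)
  · have hv := vol_minus (X := X) (C := Crq y a b c) (qo_bdd hQ) (B := √3 / 2 * (lossL (‖a - y‖ ^ 2) + lossL (‖c - y‖ ^ 2)))
      hcov (measure_union_lt_top f1.lt_top f3.lt_top).ne (by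
        refine (measureReal_union_le _ _).trans ?_
        rw [norm_sub_rev y c] at v3
        linarith)
    have hA := qo_area hQ
    have hC := mul_le_mul_of_nonneg_left (Crq_sum hQ) kap_pos.le
    rw [kap_pi] at hC
    unfold val
    have hs3 : (0:ℝ) < √3 := by positivity
    have hf : √3 / 2 * fanw (a - y) (b - y) (c - y) = (cr (a - y) (b - y) + cr (b - y) (c - y)) / 2 - √3 / 2 := by
      unfold fanw
      field_simp
    have : √3 / 2 * (fanw (a - y) (b - y) (c - y) - lossL (‖a - y‖ ^ 2) - lossL (‖c - y‖ ^ 2)) =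
        √3 / 2 * fanw (a - y) (b - y) (c - y) - √3 / 2 * (lossL (‖a - y‖ ^ 2) + lossL (‖c - y‖ ^ 2)) := by ring
    rw [this, hf]
    linarith

end Pool.Agent.H20.AP
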