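import Pool.Agent.H20.AL.FIN

/-!
# PCS: the accounting lemma for arbitrary pieces

A piece is a bounded measurable set `P` with a list `C` of corners (apex, right ray, left ray) such that the part of `P` in the cell
and the disc of a point `y` of `X` lies in the cones of the corners at `y`.
-/

set_option autoImplicit false

open MeasureTheory Set Real

noncomputable section

namespace Pool.Agent.H20.AP

open Pool.Agent.H20.AL

/-- a piece -/
structure Piece (X P : Set ℂ) (C : Finset (ℂ × ℂ × ℂ)) : Prop where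
  meas : MeasurableSet P
  bdd : ∃ R : ℝ, ∀ p ∈ P, ‖p‖ ≤ R
  cor : ∀ c ∈ C, c.1 ∈ X ∧ 0 < cr (c.2.1 - c.1) (c.2.2 - c.1) ∧ Free X c.1 c.2.1 ∧ Free X c.1 c.2.2
  cov : ∀ y ∈ X, ∀ p ∈ P, p ∈ V X y → p ∈ D y → ∃ c ∈ C, c.1 = y ∧ p ∈ Cone c.1 c.2.1 c.2.2

/-- the value of a piece -/
def val (P : Set ℂ) (C : Finset (ℂ × ℂ × ℂ)) : ℝ :=
  volume.real P - kap * ∑ c ∈ C, volume.real (Cone c.1 c.2.1 c.2.2 ∩ D c.1)

open Classical in
/-- accounting lemma for pieces -/
theorem al_pieces {s : ℂ} (hs : s ∈ Lam) (g : ℂ → ℂ) (hfin : ((Lam \ {s}) ∩ {c | g c ≠ c}).Finite)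
    (hg : ∀ c ∈ Lam \ {s}, ∀ d ∈ Lam \ {s}, c ≠ d → (1 : ℝ) ≤ dist (g c) (g d))
    {X : Set ℂ} (hX : X = g '' (Lam \ {s})) {ι : Type*} (I : Finset ι) (P : ι → Set ℂ)
    (C : ι → Finset (ℂ × ℂ × ℂ)) (h : ∀ i ∈ I, Piece X (P i) (C i))
    (hdisj : ∀ i ∈ I, ∀ j ∈ I, i ≠ j → Disjoint (P i) (P j)) :
    ∑ i ∈ I, val (P i) (C i) ≤ √3 / 2 := by
  subst hX
  set X := g '' (Lam \ {s}) with hXdef
  -- a common bound
  obtain ⟨R0, hR0⟩ : ∃ R : ℝ, ∀ i ∈ I, ∀ p ∈ P i, ‖p‖ ≤ R := by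
    choose! R hR using fun i (hi : i ∈ I) => (h i hi).bdd
    refine ⟨∑ i ∈ I, |R i|, fun i hi p hp => ?_⟩
    refine (hR i hi p hp).trans ((le_abs_self _).trans ?_)
    exact Finset.single_le_sum (f := fun i => |R i|) (fun j _ => abs_nonneg _) hi
  set R : ℝ := max R0 (∑ i ∈ I, ∑ c ∈ C i, ‖c.1‖) with hR
  have hRC : ∀ i ∈ I, ∀ c ∈ C i, ‖c.1‖ ≤ R := by
    intro i hi c hc
    refine le_trans ?_ (le_max_right _ _)
    refine le_trans (Finset.single_le_sum (f := fun c : ℂ × ℂ × ℂ => ‖c.1‖) (fun j _ => norm_nonneg _) hc) ?_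
    exact Finset.single_le_sum (f := fun i => ∑ c ∈ C i, ‖c.1‖)
      (fun j _ => Finset.sum_nonneg fun _ _ => norm_nonneg _) hi
  obtain ⟨S, Y, hconf, hball, hY⟩ := cfg hs g hfin hg R
  have hP : MeasurableSet (⋃ i ∈ I, P i) := Finset.measurableSet_biUnion _ (fun i hi => (h i hi).meas)
  have hPS : (⋃ i ∈ I, P i) ⊆ ⋃ σ ∈ S, Hex σ := by
    intro p hp
    simp only [Set.mem_iUnion] at hp
    obtain ⟨i, hi, hp⟩ := hp
    refine hball ?_
    rw [Metric.mem_closedBall, dist_zero_right]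
    exact (hR0 i hi p hp).trans (le_max_left _ _)
  have hcore := core hconf (I.biUnion C) (by
      intro c hc
      obtain ⟨i, hi, hc⟩ := Finset.mem_biUnion.1 hc
      exact ((h i hi).cor c hc).2)
    (by
      intro c hc
      obtain ⟨i, hi, hc⟩ := Finset.mem_biUnion.1 hc
      exact hY _ ((h i hi).cor c hc).1 (hRC i hi c hc)) hP hPS
    (by
      intro y hy p hp hV hD
      simp only [Set.mem_iUnion] at hp
      obtain ⟨i, hi, hp⟩ := hp
      have hyX : y ∈ X := by rw [hXdef, hconf.eq]; exact Or.inr hy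
      obtain ⟨c, hc, h1, h2⟩ := (h i hi).cov y hyX p hp hV hD
      exact ⟨c, Finset.mem_biUnion.2 ⟨i, hi, hc⟩, h1, h2⟩)
  have hfinite : ∀ i ∈ I, volume (P i) ≠ ⊤ := by
    intro i hi
    refine ne_of_lt ?_
    refine lt_of_le_of_lt (measure_mono (t := Metric.closedBall 0 R0) ?_) measure_closedBall_lt_top
    intro p hp
    rw [Metric.mem_closedBall, dist_zero_right]
    exact hR0 i hi p hp
  have harea : volume.real (⋃ i ∈ I, P i) = ∑ i ∈ I, volume.real (P i) :=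
    measureReal_biUnion_finset (fun i hi j hj hij => hdisj i hi j hj hij) (fun i hi => (h i hi).meas) hfinite
  rw [harea] at hcore
  have hC : ∑ c ∈ I.biUnion C, volume.real (Cone c.1 c.2.1 c.2.2 ∩ D c.1) ≤
      ∑ i ∈ I, ∑ c ∈ C i, volume.real (Cone c.1 c.2.1 c.2.2 ∩ D c.1) := by
    have himg : I.biUnion C = (I.sigma C).image (fun q : (_ : ι) × (ℂ × ℂ × ℂ) => q.2) := by
      ext c
      simp only [Finset.mem_biUnion, Finset.mem_image, Finset.mem_sigma]
      constructor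
      · rintro ⟨i, hi, hc⟩
        exact ⟨⟨i, c⟩, ⟨hi, hc⟩, rfl⟩
      · rintro ⟨⟨i, c'⟩, ⟨hi, hc⟩, rfl⟩
        exact ⟨i, hi, hc⟩
    rw [himg]
    refine (Finset.sum_image_le_of_nonneg (fun _ _ => measureReal_nonneg)).trans ?_
    rw [Finset.sum_sigma]
  unfold val
  rw [Finset.sum_sub_distrib, ← Finset.mul_sum]
  have := mul_le_mul_of_nonneg_left hC kap_pos.le
  linarith

/-- the corners of a triple -/
def Crn (v : Fin 3 → ℂ) : Finset (ℂ × ℂ × ℂ) :=
  Finset.univ.image fun k : Fin 3 => (v k, v (k + 1), v (k + 2))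

theorem Crn_sum_le (v : Fin 3 → ℂ) : ∑ c ∈ Crn v, volume.real (Cone c.1 c.2.1 c.2.2 ∩ D c.1) ≤
    ∑ k : Fin 3, volume.real (K3 v k ∩ D (v k)) := by
  classical
  unfold Crn
  exact Finset.sum_image_le_of_nonneg (fun _ _ => measureReal_nonneg)

theorem good_ne {v : Fin 3 → ℂ} (h : Good v) (k : Fin 3) : v (k + 1) ≠ v k := by
  intro e
  have h1 := h.1
  rw [← NOV_orient v k, e, sub_self] at h1
  simp [cr] at h1

theorem good_le {v : Fin 3 → ℂ} (h : Good v) (k : Fin 3) : dist (v (k + 1)) (v k) ≤ √3 := by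
  have h1 := h.2.1 k
  rw [dist_eq_norm]
  refine Real.le_sqrt_of_sq_le ?_
  linarith

/-- a good triangle of the packing is a piece -/
theorem piece_tri {X : Set ℂ} (hsep : Sep X) {v : Fin 3 → ℂ} (h : Good v) (hv : ∀ k, v k ∈ X) :
    Piece X (T3 v) (Crn v) := by
  classical
  have h3 : ∀ k : Fin 3, k + 2 + 1 = k := by decide
  refine ⟨(isOpen_Tri _ _ _).measurableSet, ⟨_, fun p hp => T3_bdd v h.1 hp⟩, ?_, ?_⟩
  · intro c hc
    obtain ⟨k, -, rfl⟩ := Finset.mem_image.1 hc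
    refine ⟨hv k, ?_, ?_, ?_⟩
    · have := h.1
      rw [← NOV_orient v k] at this
      exact this
    · exact free_X hsep (hv k) (hv (k + 1)) (good_ne h k) (good_le h k)
    · have h4 := good_ne h (k + 2)
      have h5 := good_le h (k + 2)
      rw [h3] at h4 h5
      rw [dist_comm] at h5
      exact free_X hsep (hv k) (hv (k + 2)) h4.symm h5
  · intro y hy p hp _ hD
    by_cases hk : ∃ k, v k = y
    · obtain ⟨k, rfl⟩ := hk
      exact ⟨_, Finset.mem_image.2 ⟨k, Finset.mem_univ _, rfl⟩, rfl, T3_sub_K3 v k hp⟩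
    · exfalso
      push Not at hk
      have hd : ∀ k, 1 ≤ dist y (v k) := fun k => hsep y hy _ (hv k) (hk k).symm
      have he : ∀ k : Fin 3, dist (v k) (v (k + 1)) ^ 2 ≤ 8 / 3 := fun k => by
        rw [dist_comm, dist_eq_norm]; exact h.2.1 k
      exact Set.disjoint_left.1 (disc_tri h.1 (he 0) (he 1) (he 2) (hd 0) (hd 1) (hd 2)) hD hp

theorem kap_pi6 : kap * (π / 6) = √3 / 4 := by
  unfold kap; field_simp; ring

theorem val_tri {v : Fin 3 → ℂ} (h : 0 < A3 v) : A3 v / 2 - √3 / 4 ≤ val (T3 v) (Crn v) := by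
  unfold val
  have h1 : volume.real (T3 v) = A3 v / 2 := tri_vol h
  have h2 := Crn_sum_le v
  have h3 := corner_sum h
  have h4 : ∑ k : Fin 3, volume.real (K3 v k ∩ D (v k)) ≤ π / 6 := by
    rw [Fin.sum_univ_three]; exact h3
  have h5 := mul_le_mul_of_nonneg_left (h2.trans h4) kap_pos.le
  rw [kap_pi6] at h5
  rw [h1]
  linarith

end Pool.Agent.H20.AP
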