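import Pool.Agent.H20.AP.PCS
import Pool.Agent.H16.AP.QUAD

/-!
# QD: area of the open quadrilateral `Qo`, pieces (open set minus foreign discs)
-/

set_option autoImplicit false

open MeasureTheory Set Real

noncomputable section

namespace Pool.Agent.H20.AP

open Pool.Agent.H20.AL Pool.Agent.H78.P6 Pool.Agent.H16.AP

theorem qo_tri1 {p a b c : ℂ} (h : QC p a b c) : Tri p a b ⊆ Qo p a b c := by
  obtain ⟨h1, h4, h2, h3⟩ := h
  rintro u ⟨p1, p2, p3⟩
  refine ⟨p1, p2, ?_, ?_⟩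
  · have e : cr (c - b) (u - b) * cr (a - p) (b - p) =
        cr (b - a) (c - a) * cr (p - b) (u - b) + cr (b - p) (c - p) * cr (b - a) (u - a) := by
      simp only [cr, Complex.sub_re, Complex.sub_im]; ring
    have : 0 < cr (c - b) (u - b) * cr (a - p) (b - p) := by rw [e]; nlinarith [mul_pos h4 p3, mul_pos h2 p2]
    exact (pos_iff_pos_of_mul_pos this).2 h1
  · have e : cr (p - c) (u - c) * cr (a - p) (b - p) =
        cr (a - p) (c - p) * cr (p - b) (u - b) + cr (b - p) (c - p) * cr (a - p) (u - p) := by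
      simp only [cr, Complex.sub_re, Complex.sub_im]; ring
    have : 0 < cr (p - c) (u - c) * cr (a - p) (b - p) := by rw [e]; nlinarith [mul_pos h3 p3, mul_pos h2 p1]
    exact (pos_iff_pos_of_mul_pos this).2 h1

theorem qo_rot2 (p a b c : ℂ) : Qo p a b c = Qo b c p a := by
  ext u
  constructor
  · rintro ⟨h1, h2, h3, h4⟩; exact ⟨h3, h4, h1, h2⟩
  · rintro ⟨h1, h2, h3, h4⟩; exact ⟨h3, h4, h1, h2⟩

theorem qc_rot2 {p a b c : ℂ} (h : QC p a b c) : QC b c p a := by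
  obtain ⟨h1, h2, h3, h4⟩ := h
  refine ⟨?_, ?_, ?_, ?_⟩ <;> simp only [cr, Complex.sub_re, Complex.sub_im] at * <;> linarith

theorem qo_tri2 {p a b c : ℂ} (h : QC p a b c) : Tri p b c ⊆ Qo p a b c := by
  have h2 := qo_tri1 (qc_rot2 h)
  rw [← qo_rot2] at h2
  refine subset_trans ?_ h2
  rw [tri_rot]

theorem qd_sub (p a b c : ℂ) : Qd p a b c ⊆ CTri p a b ∪ CTri p b c := by
  rintro u ⟨h1, h2, h3, h4⟩
  rcases le_total 0 (cr (p - b) (u - b)) with h | h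
  · exact Or.inl ⟨h1, h2, h⟩
  · refine Or.inr ⟨?_, h3, h4⟩
    have e : cr (b - p) (u - p) = -cr (p - b) (u - b) := by
      simp only [cr, Complex.sub_re, Complex.sub_im]; ring
    rw [e]; linarith

/-- barycentric coordinates -/
theorem ctri_bary {a b c p : ℂ} (h : 0 < cr (b - a) (c - a)) (hp : p ∈ CTri a b c) :
    ∃ x y z : ℝ, 0 ≤ x ∧ 0 ≤ y ∧ 0 ≤ z ∧ x + y + z = 1 ∧ p = x * a + y * b + z * c := by
  obtain ⟨h1, h2, h3⟩ := hp
  set A := cr (b - a) (c - a) with hA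
  refine ⟨cr (c - b) (p - b) / A, cr (a - c) (p - c) / A, cr (b - a) (p - a) / A, by positivity, by positivity,
    by positivity, ?_, ?_⟩
  · rw [← add_div, ← add_div, div_eq_one_iff_eq h.ne']
    simp only [hA, cr, Complex.sub_re, Complex.sub_im]; ring
  · have hA' : (A : ℂ) ≠ 0 := by exact_mod_cast h.ne'
    have e : (A : ℂ) * p = cr (c - b) (p - b) * a + cr (a - c) (p - c) * b + cr (b - a) (p - a) * c := by
      apply Complex.ext <;> simp [hA, cr] <;> ring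
    push_cast
    field_simp
    linear_combination e

theorem ctri_norm {a b c p : ℂ} (h : 0 < cr (b - a) (c - a)) (hp : p ∈ CTri a b c) :
    ‖p‖ ≤ ‖a‖ + ‖b‖ + ‖c‖ := by
  obtain ⟨x, y, z, hx, hy, hz, hs, rfl⟩ := ctri_bary h hp
  refine (norm_add₃_le).trans ?_
  rw [norm_mul, norm_mul, norm_mul, Complex.norm_real, Complex.norm_real, Complex.norm_real,
    Real.norm_of_nonneg hx, Real.norm_of_nonneg hy, Real.norm_of_nonneg hz]
  have := norm_nonneg a
  have := norm_nonneg b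
  have := norm_nonneg c
  nlinarith [mul_nonneg hx (norm_nonneg b), mul_nonneg hx (norm_nonneg c), mul_nonneg hy (norm_nonneg a),
    mul_nonneg hy (norm_nonneg c), mul_nonneg hz (norm_nonneg a), mul_nonneg hz (norm_nonneg b)]

theorem qd_norm {p a b c : ℂ} (h : QC p a b c) {u : ℂ} (hu : u ∈ Qd p a b c) :
    ‖u‖ ≤ ‖p‖ + ‖a‖ + ‖b‖ + ‖c‖ := by
  have := norm_nonneg a
  have := norm_nonneg c
  rcases qd_sub p a b c hu with h1 | h1
  · have := ctri_norm h.pab h1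
    linarith
  · have := ctri_norm h.bcp h1
    linarith

theorem qo_bdd {p a b c : ℂ} (h : QC p a b c) : ∃ R : ℝ, ∀ u ∈ Qo p a b c, ‖u‖ ≤ R :=
  ⟨_, fun _ hu => qd_norm h (Qo_sub_Qd _ _ _ _ hu)⟩

theorem fin_of_bdd {P : Set ℂ} (h : ∃ R : ℝ, ∀ u ∈ P, ‖u‖ ≤ R) : volume P ≠ ⊤ := by
  obtain ⟨R, hR⟩ := h
  refine ne_of_lt ?_
  refine lt_of_le_of_lt (measure_mono (t := Metric.closedBall 0 R) ?_) measure_closedBall_lt_top
  intro p hp
  rw [Metric.mem_closedBall, dist_zero_right]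
  exact hR p hp

theorem qo_area {p a b c : ℂ} (h : QC p a b c) :
    (cr (a - p) (b - p) + cr (b - p) (c - p)) / 2 ≤ volume.real (Qo p a b c) := by
  have hfin := fin_of_bdd (qo_bdd h)
  have hdis : Disjoint (Tri p a b) (Tri p b c) := by
    rw [Set.disjoint_left]
    rintro u ⟨-, -, p3⟩ ⟨q1, -, -⟩
    have e : cr (b - p) (u - p) = -cr (p - b) (u - b) := by
      simp only [cr, Complex.sub_re, Complex.sub_im]; ring
    rw [e] at q1; linarith
  have h1 : volume.real (Tri p a b ∪ Tri p b c) = volume.real (Tri p a b) + volume.real (Tri p b c) :=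
    measureReal_union hdis (isOpen_Tri _ _ _).measurableSet
      (ne_top_of_le_ne_top hfin (measure_mono (qo_tri1 h))) (ne_top_of_le_ne_top hfin (measure_mono (qo_tri2 h)))
  have h2 : volume.real (Tri p a b ∪ Tri p b c) ≤ volume.real (Qo p a b c) :=
    measureReal_mono (Set.union_subset (qo_tri1 h) (qo_tri2 h)) hfin
  have h3 : volume.real (Tri p a b) = cr (a - p) (b - p) / 2 := tri_vol h.pab
  have h4 : volume.real (Tri p b c) = cr (b - p) (c - p) / 2 := tri_vol h.bcp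
  linarith

/-! ### pieces -/

/-- `P0` minus the discs of the points of `X` which are not apexes of `C` -/
def Minus (X P0 : Set ℂ) (C : Finset (ℂ × ℂ × ℂ)) : Set ℂ :=
  P0 \ ⋃ w ∈ {w | w ∈ X ∧ ∀ c ∈ C, c.1 ≠ w}, D w

theorem piece_minus {X P0 : Set ℂ} {C : Finset (ℂ × ℂ × ℂ)} (ho : IsOpen P0) (hb : ∃ R : ℝ, ∀ p ∈ P0, ‖p‖ ≤ R)
    (hc : ∀ c ∈ C, c.1 ∈ X ∧ 0 < cr (c.2.1 - c.1) (c.2.2 - c.1) ∧ Free X c.1 c.2.1 ∧ Free X c.1 c.2.2)
    (hP : ∀ c ∈ C, P0 ⊆ Cone c.1 c.2.1 c.2.2) : Piece X (Minus X P0 C) C := by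
  refine ⟨?_, ?_, hc, ?_⟩
  · exact ho.measurableSet.diff (isOpen_biUnion fun w _ => isOpen_D w).measurableSet
  · obtain ⟨R, hR⟩ := hb
    exact ⟨R, fun p hp => hR p hp.1⟩
  · rintro y hy p ⟨hp0, hp1⟩ - hD
    by_cases h : ∃ c ∈ C, c.1 = y
    · obtain ⟨c, hc, rfl⟩ := h
      exact ⟨c, hc, rfl, hP c hc hp0⟩
    · push Not at h
      exfalso
      apply hp1
      exact Set.mem_biUnion (show y ∈ {w | w ∈ X ∧ ∀ c ∈ C, c.1 ≠ w} from ⟨hy, h⟩) hD

theorem vol_minus {X P0 : Set ℂ} {C : Finset (ℂ × ℂ × ℂ)} (hb : ∃ R : ℝ, ∀ p ∈ P0, ‖p‖ ≤ R)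
    {B : ℝ} {S : Set ℂ} (hS : ∀ w ∈ X, (∀ c ∈ C, c.1 ≠ w) → P0 ∩ D w ⊆ S) (hSf : volume S ≠ ⊤)
    (hB : volume.real S ≤ B) : volume.real P0 - B ≤ volume.real (Minus X P0 C) := by
  have hfin := fin_of_bdd hb
  have h1 : P0 ⊆ Minus X P0 C ∪ S := by
    intro p hp
    by_cases h : p ∈ ⋃ w ∈ {w | w ∈ X ∧ ∀ c ∈ C, c.1 ≠ w}, D w
    · obtain ⟨w, hw, hpw⟩ := Set.mem_iUnion₂.1 h
      exact Or.inr (hS w hw.1 hw.2 ⟨hp, hpw⟩)
    · exact Or.inl ⟨hp, h⟩
  have hMf : volume (Minus X P0 C) ≠ ⊤ := ne_top_of_le_ne_top hfin (measure_mono Set.diff_subset)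
  have h2 : volume.real P0 ≤ volume.real (Minus X P0 C ∪ S) := by
    refine measureReal_mono h1 ?_
    exact (measure_union_lt_top hMf.lt_top hSf.lt_top).ne
  have h3 := measureReal_union_le (μ := volume) (Minus X P0 C) S
  linarith

end Pool.Agent.H20.AP
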