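import Pool.Agent.H20.AP.RVL

/-!
# VPC: values of the virtual apex pieces

Quadrilateral `a b c d` with the virtual apex `a`, frames `b, c, d`.
`vpiece`: corners at `b, c, d`; `wpiece`: corner at `c` only (the discs of `b` and `d` are removed).
-/

set_option autoImplicit false

open MeasureTheory Set Real

noncomputable section

namespace Pool.Agent.H20.AP

open Pool.Agent.H20.AL Pool.Agent.H78.P6 Pool.Agent.H16.AP Pool.Agent.H63.P6

/-- angle at `a` between `b` and `c` -/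
def Ag (a b c : ℂ) : ℝ := Real.arccos (dt (b - a) (c - a) / (‖b - a‖ * ‖c - a‖))

theorem Ag_nonneg (a b c : ℂ) : 0 ≤ Ag a b c := Real.arccos_nonneg _

theorem three_sum {a b c d : ℂ} (hQ : QC a b c d) :
    volume.real (Cone b c a ∩ D b) + volume.real (Cone c d b ∩ D c) + volume.real (Cone d a c ∩ D d) ≤
      π / 3 - (Ag a b c + Ag a c d) / 6 := by
  have hca : c ≠ a := by
    rintro rfl
    have := hQ.pab
    simp [cr] at this
  have h2 := cone_split (x := c) (a := d) (b := a) (c := b) hca.symm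
  have h3 := corner_sum hQ.pab
  have h4 := corner_sum hQ.bcp
  have h5 := ang hQ.pab
  have h6 := ang hQ.bcp
  unfold Ag
  linarith

/-- three corners -/
def Crv (a b c d : ℂ) : Finset (ℂ × ℂ × ℂ) :=
  Finset.univ.image fun k : Fin 3 => ![(b, c, a), (c, d, b), (d, a, c)] k

theorem Crv_mem {a b c d : ℂ} {q : ℂ × ℂ × ℂ} :
    q ∈ Crv a b c d ↔ q = (b, c, a) ∨ q = (c, d, b) ∨ q = (d, a, c) := by
  unfold Crv
  rw [Finset.mem_image]
  constructor
  · rintro ⟨k, -, rfl⟩
    fin_cases k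
    · exact Or.inl rfl
    · exact Or.inr (Or.inl rfl)
    · exact Or.inr (Or.inr rfl)
  · rintro (rfl | rfl | rfl)
    · exact ⟨0, Finset.mem_univ _, rfl⟩
    · exact ⟨1, Finset.mem_univ _, rfl⟩
    · exact ⟨2, Finset.mem_univ _, rfl⟩

theorem Crv_sum {a b c d : ℂ} : ∑ q ∈ Crv a b c d, volume.real (Cone q.1 q.2.1 q.2.2 ∩ D q.1) ≤
    volume.real (Cone b c a ∩ D b) + volume.real (Cone c d b ∩ D c) + volume.real (Cone d a c ∩ D d) := by
  have h0 : ∑ q ∈ Crv a b c d, volume.real (Cone q.1 q.2.1 q.2.2 ∩ D q.1) ≤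
      ∑ k : Fin 3, volume.real (Cone (![(b, c, a), (c, d, b), (d, a, c)] k).1
        (![(b, c, a), (c, d, b), (d, a, c)] k).2.1 (![(b, c, a), (c, d, b), (d, a, c)] k).2.2 ∩
        D (![(b, c, a), (c, d, b), (d, a, c)] k).1) := by
    classical
    unfold Crv
    exact Finset.sum_image_le_of_nonneg (fun _ _ => measureReal_nonneg)
  rw [Fin.sum_univ_three] at h0
  simp only [Matrix.cons_val] at h0
  exact h0

theorem fanw_eq (a b c d : ℂ) : √3 / 2 * fanw (b - a) (c - a) (d - a) =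
    (cr (b - a) (c - a) + cr (c - a) (d - a)) / 2 - √3 / 2 := by
  have hs3 : (0:ℝ) < √3 := by positivity
  unfold fanw
  field_simp

theorem kap6 (t : ℝ) : kap * (t / 6) = √3 / 2 * (t / (2 * π)) := by
  unfold kap; field_simp; ring

/-- virtual piece with the three corners `b, c, d` -/
theorem vpiece {X : Set ℂ} (hsep : Sep X) {a b c d : ℂ} (hb : b ∈ X) (hc : c ∈ X) (hd : d ∈ X)
    (hQ : QC a b c d) (e1 : ‖c - b‖ ^ 2 ≤ 3) (e2 : ‖d - c‖ ^ 2 ≤ 3) (f1 : Free X b a) (f3 : Free X d a)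
    {S : Set ℂ} {β : ℝ} (hS : ∀ w ∈ X, w ≠ b → w ≠ c → w ≠ d → Qo a b c d ∩ D w ⊆ S) (hSf : volume S ≠ ⊤)
    (hβ : volume.real S ≤ √3 / 2 * β) :
    ∃ (P : Set ℂ) (C : Finset (ℂ × ℂ × ℂ)), Piece X P C ∧ P ⊆ Qo a b c d ∧
      √3 / 2 * (fanw (b - a) (c - a) (d - a) + (Ag a b c + Ag a c d) / (2 * π) - β) ≤ val P C := by
  have hcb : c ≠ b := by
    rintro rfl
    have := hQ.abc
    simp [cr] at this
  have hdc : d ≠ c := by
    rintro rfl
    have := hQ.bcp
    rw [cr_self] at this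
    exact lt_irrefl _ this
  have hlt : ∀ u v : ℂ, ‖u - v‖ ^ 2 ≤ 3 → dist u v ≤ √3 := by
    intro u v h
    rw [dist_eq_norm]
    exact Real.le_sqrt_of_sq_le h
  have hlt' : ∀ u v : ℂ, ‖u - v‖ ^ 2 ≤ 3 → dist v u ≤ √3 := by
    intro u v h
    rw [dist_comm]; exact hlt u v h
  have hcorn : ∀ q ∈ Crv a b c d, (q.1 ∈ X ∧ 0 < cr (q.2.1 - q.1) (q.2.2 - q.1) ∧ Free X q.1 q.2.1 ∧
      Free X q.1 q.2.2) ∧ Qo a b c d ⊆ Cone q.1 q.2.1 q.2.2 := by
    intro q hq
    rcases Crv_mem.1 hq with rfl | rfl | rfl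
    · refine ⟨⟨hb, ?_, free_X hsep hb hc hcb (hlt _ _ e1), f1⟩, fun u hu => Qo_cone_a hu⟩
      have := hQ.pab
      simp only [cr, Complex.sub_re, Complex.sub_im] at *
      linarith
    · refine ⟨⟨hc, ?_, free_X hsep hc hd hdc (hlt _ _ e2), free_X hsep hc hb hcb.symm (hlt' _ _ e1)⟩,
        fun u hu => Qo_cone_b hu⟩
      have := hQ.abc
      simp only [cr, Complex.sub_re, Complex.sub_im] at *
      linarith
    · refine ⟨⟨hd, ?_, f3, free_X hsep hd hc hdc.symm (hlt' _ _ e2)⟩, fun u hu => Qo_cone_c hu⟩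
      have := hQ.bcp
      simp only [cr, Complex.sub_re, Complex.sub_im] at *
      linarith
  refine ⟨Minus X (Qo a b c d) (Crv a b c d), Crv a b c d, ?_, Set.diff_subset, ?_⟩
  · exact piece_minus (Qo_open _ _ _ _) (qo_bdd hQ) (fun q hq => (hcorn q hq).1) (fun q hq => (hcorn q hq).2)
  · have hv := vol_minus (X := X) (C := Crv a b c d) (qo_bdd hQ) (B := √3 / 2 * β) (S := S) (by
      intro w hw hq
      exact hS w hw (hq (b, c, a) (Crv_mem.2 (Or.inl rfl))).symm
        (hq (c, d, b) (Crv_mem.2 (Or.inr (Or.inl rfl)))).symm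
        (hq (d, a, c) (Crv_mem.2 (Or.inr (Or.inr rfl)))).symm) hSf hβ
    have hA := qo_area hQ
    have hC := mul_le_mul_of_nonneg_left (Crv_sum.trans (three_sum hQ)) kap_pos.le
    rw [mul_sub, kap_pi, kap6] at hC
    have hf := fanw_eq a b c d
    unfold val
    have : √3 / 2 * (fanw (b - a) (c - a) (d - a) + (Ag a b c + Ag a c d) / (2 * π) - β) =
        √3 / 2 * fanw (b - a) (c - a) (d - a) + √3 / 2 * ((Ag a b c + Ag a c d) / (2 * π)) - √3 / 2 * β := by ring
    rw [this, hf]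
    linarith

theorem kap_num : (1 - kap) / 6 ≤ √3 / 2 * (334 / 10000) := by
  unfold kap
  have hpi : π < 3.1416 := Real.pi_lt_d4
  have hs3 : (1.73205 : ℝ) < √3 := Real.lt_sqrt_of_sq_lt (by norm_num)
  have h1 : 0.8269 ≤ 3 * √3 / (2 * π) := by
    rw [le_div_iff₀ (by positivity)]
    nlinarith
  nlinarith

/-- virtual piece with the corner `c` only -/
theorem wpiece {X : Set ℂ} (hsep : Sep X) {a b c d : ℂ} (hb : b ∈ X) (hc : c ∈ X) (hd : d ∈ X)
    (hQ : QC a b c d) (e1 : ‖c - b‖ ^ 2 ≤ 3) (e2 : ‖d - c‖ ^ 2 ≤ 3)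
    {S : Set ℂ} {β : ℝ} (hS : ∀ w ∈ X, w ≠ b → w ≠ c → w ≠ d → Qo a b c d ∩ D w ⊆ S) (hSf : volume S ≠ ⊤)
    (hβ : volume.real S ≤ √3 / 2 * β) :
    ∃ (P : Set ℂ) (C : Finset (ℂ × ℂ × ℂ)), Piece X P C ∧ P ⊆ Qo a b c d ∧
      √3 / 2 * (fanw (b - a) (c - a) (d - a) + (Ag a b c + Ag a c d) / (2 * π) -
        334 / 10000 * (Ag b c a + Ag d a c) - β) ≤ val P C := by
  have hcb : c ≠ b := by
    rintro rfl
    have := hQ.abc
    simp [cr] at this
  have hdc : d ≠ c := by
    rintro rfl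
    have := hQ.bcp
    rw [cr_self] at this
    exact lt_irrefl _ this
  have hlt : ∀ u v : ℂ, ‖u - v‖ ^ 2 ≤ 3 → dist u v ≤ √3 := by
    intro u v h
    rw [dist_eq_norm]
    exact Real.le_sqrt_of_sq_le h
  have hcorn : ((c, d, b) : ℂ × ℂ × ℂ).1 ∈ X ∧ 0 < cr (d - c) (b - c) ∧ Free X c d ∧ Free X c b := by
    refine ⟨hc, ?_, free_X hsep hc hd hdc (hlt _ _ e2), free_X hsep hc hb hcb.symm ?_⟩
    · have := hQ.abc
      simp only [cr, Complex.sub_re, Complex.sub_im] at *
      linarith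
    · rw [dist_comm]; exact hlt _ _ e1
  have hb0 : 0 < cr (c - b) (a - b) := by
    have := hQ.pab
    simp only [cr, Complex.sub_re, Complex.sub_im] at *
    linarith
  have hd0 : 0 < cr (a - d) (c - d) := by
    have := hQ.bcp
    simp only [cr, Complex.sub_re, Complex.sub_im] at *
    linarith
  refine ⟨Minus X (Qo a b c d) {(c, d, b)}, {(c, d, b)}, ?_, Set.diff_subset, ?_⟩
  · refine piece_minus (Qo_open _ _ _ _) (qo_bdd hQ) ?_ ?_
    · intro q hq
      rw [Finset.mem_singleton] at hq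
      subst hq
      exact hcorn
    · intro q hq
      rw [Finset.mem_singleton] at hq
      subst hq
      exact fun u hu => Qo_cone_b hu
  · have hfb : volume (Cone b c a ∩ D b) ≠ ⊤ := TRA_fin b Set.inter_subset_right
    have hfd : volume (Cone d a c ∩ D d) ≠ ⊤ := TRA_fin d Set.inter_subset_right
    have hv := vol_minus (X := X) (C := {(c, d, b)}) (qo_bdd hQ)
      (B := √3 / 2 * β + volume.real (Cone b c a ∩ D b) + volume.real (Cone d a c ∩ D d))
      (S := S ∪ (Cone b c a ∩ D b) ∪ (Cone d a c ∩ D d)) (by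
        intro w hw hq
        have hwc : w ≠ c := (hq (c, d, b) (Finset.mem_singleton_self _)).symm
        by_cases hwb : w = b
        · subst hwb
          rintro p ⟨hp, hpD⟩
          exact Or.inl (Or.inr ⟨Qo_cone_a hp, hpD⟩)
        · by_cases hwd : w = d
          · subst hwd
            rintro p ⟨hp, hpD⟩
            exact Or.inr ⟨Qo_cone_c hp, hpD⟩
          · exact (hS w hw hwb hwc hwd).trans (Set.subset_union_left.trans Set.subset_union_left))
      (measure_union_lt_top (measure_union_lt_top hSf.lt_top hfb.lt_top) hfd.lt_top).ne (by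
        have h1 := measureReal_union_le (μ := volume) (S ∪ (Cone b c a ∩ D b)) (Cone d a c ∩ D d)
        have h2 := measureReal_union_le (μ := volume) S (Cone b c a ∩ D b)
        linarith)
    have hA := qo_area hQ
    have hC := mul_le_mul_of_nonneg_left (three_sum hQ) kap_pos.le
    rw [mul_sub, kap_pi, kap6] at hC
    have hf := fanw_eq a b c d
    have hsb : volume.real (Cone b c a ∩ D b) = Ag b c a / 6 := ang hb0
    have hsd : volume.real (Cone d a c ∩ D d) = Ag d a c / 6 := ang hd0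
    have hkn := kap_num
    have hB := Ag_nonneg b c a
    have hD := Ag_nonneg d a c
    have hkb := mul_le_mul_of_nonneg_right hkn hB
    have hkd := mul_le_mul_of_nonneg_right hkn hD
    unfold val
    rw [Finset.sum_singleton]
    have e : √3 / 2 * (fanw (b - a) (c - a) (d - a) + (Ag a b c + Ag a c d) / (2 * π) -
        334 / 10000 * (Ag b c a + Ag d a c) - β) =
        √3 / 2 * fanw (b - a) (c - a) (d - a) + √3 / 2 * ((Ag a b c + Ag a c d) / (2 * π)) -
        √3 / 2 * (334 / 10000) * Ag b c a - √3 / 2 * (334 / 10000) * Ag d a c - √3 / 2 * β := by ring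
    rw [e, hf]
    rw [hsb, hsd] at hC hv
    change _ ≤ volume.real _ - kap * volume.real (Cone c d b ∩ D c)
    set s := volume.real (Cone c d b ∩ D c)
    have e3 : kap * (Ag b c a / 6 + s + Ag d a c / 6) = kap * s + kap / 6 * Ag b c a + kap / 6 * Ag d a c := by ring
    rw [e3] at hC
    linarith

end Pool.Agent.H20.AP
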